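import Pool.Agent.Y722.TM.Lin
import Pool.Agent.Y722.PC.Plane

/-!
# All hypersurfaces of degree `d`, times a fixed motive
-/

set_option autoImplicit false

namespace Pool.Agent.Y722.TM

open Finset Pool.Agent.Y722.HS Pool.Agent.Y722.LS Pool.Agent.Y722.PC

variable {n : ℕ}

/-- The forms of degree `d` separate points. -/
theorem separates_monp {d : ℕ} (hd : 1 ≤ d) (p : ℕ) [Fact p.Prime] :
    Separates (fun μ : Mon n d => monp μ) p := by
  rintro x y ⟨i, j, hij⟩ ⟨μ, hμ⟩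
  have hx : x ≠ 0 := by
    rintro rfl
    simp at hij
  obtain ⟨c, hc1, hc2⟩ := exists_val_pair hd x y hx i j hij 1
  refine ⟨c, ?_, ?_⟩
  · rw [eval_lform_monp]
    change val c x ≠ 0
    rw [hc1]
    exact one_ne_zero
  · rw [eval_lform_monp]
    exact hc2

/-- **All hypersurfaces of degree `d` in `ℙⁿ`, times a fixed motive.** -/
theorem complete {d : ℕ} (hn : 1 ≤ n) (hd : 1 ≤ d) (r b : ℕ) :
    ∃ C : ℝ, ∀ (wt : ℝ) (β : ℕ → Fin r → ℂ),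
      (∀ p : ℕ, p.Prime → ∀ i, ‖β p i‖ ≤ (p : ℝ) ^ (wt / 2)) →
      ∀ H : ℕ, 2 ≤ H → ∀ T : ℝ, 0 ≤ T → ∀ S ⊆ box (Mon n d) H,
      ∀ (γ : (Mon n d → ℤ) → ℕ → Fin b → ℂ) (ε t : (Mon n d → ℤ) → ℝ),
      (∀ c ∈ S, IsFrobT (fun μ : Mon n d => monp μ)
        (fun p => ((p : ℝ) ^ n - 1) / ((p : ℝ) - 1)) wt β b c (γ c)) →
      (∀ c ∈ S, 1 / Real.log H ≤ ε c ∧ ε c ≤ 1) → (∀ c ∈ S, |t c| ≤ T) →
      ∑ c ∈ S, Real.log ‖LP (γ c) (((n : ℂ) + 1 + wt) / 2 + ε c + t c * Complex.I)‖ ^ 2 ≤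
        C * (1 + T) * (box (Mon n d) H).card := by
  have hz : ∀ p : ℕ, p.Prime → zn (fun μ : Mon n d => monp μ) p = 0 := by
    intro p hp
    have := Fact.mk hp
    rw [zn, bcone_monp]
    simp
  exact tensor hn hd (fun μ : Mon n d => monp μ) (fun μ => monp_hom μ) (fermat n d ℤ)
    (smooth_fermat d hd) 0 (fun p hp _ => by have := Fact.mk hp; exact separates_monp hd p)
    (fun p => ((p : ℝ) ^ n - 1) / ((p : ℝ) - 1)) 0
    (fun p hp _ => by rw [hz p hp]; simp) (fun p hp _ => by rw [hz p hp]; simp) r b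

end Pool.Agent.Y722.TM
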