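import Pool.Agent.Y722.TM.Seg

/-!
# From moments modulo primes to the L-functions near the edge line, with fixed weights
-/

set_option autoImplicit false
set_option linter.unusedSectionVars false

namespace Pool.Agent.Y722.TM

open Finset Pool.Agent.Y722.HS Pool.Agent.Y722.LS

section
variable {b : ℕ}

/-- The Euler product at a complex point, in terms of the primes up to `y`. -/
theorem log_LP_at (γ : ℕ → Fin b → ℂ) (κ ε t : ℝ) (hε : 0 < ε) (hε1 : ε ≤ 1)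
    (hγ : ∀ p : ℕ, p.Prime → ∀ j, ‖γ p j‖ ≤ (p : ℝ) ^ κ) (y : ℕ) (hy : 1 ≤ y) :
    |Real.log ‖LP γ (κ + 1 + ε + t * Complex.I)‖ -
      ∑ p ∈ PR y, ((∑ j, γ p j) * (p : ℂ) ^ (-((κ : ℂ) + 1 + ε + t * Complex.I))).re| ≤
      b * SS + 2 * b * (16 / (ε * Real.log (y + 1))) := by
  set α : ℕ → Fin b → ℂ := fun p j => γ p j * (p : ℂ) ^ (-((κ : ℂ) + t * Complex.I)) with hα
  have hb : ∀ p : ℕ, p.Prime → ∀ j, ‖α p j‖ ≤ (p : ℝ) ^ ((((1 : ℕ) : ℝ) - 1) / 2) := by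
    intro p hp j
    have hp0 : (0 : ℝ) < p := by exact_mod_cast hp.pos
    have h1 : ‖(p : ℂ) ^ (-((κ : ℂ) + t * Complex.I))‖ = (p : ℝ) ^ (-κ) := by
      have : ((p : ℝ) : ℂ) = (p : ℂ) := by push_cast; rfl
      rw [← this, Complex.norm_cpow_eq_rpow_re_of_pos hp0]
      congr 1
      simp
    rw [hα]
    simp only [norm_mul, h1]
    calc _ ≤ (p : ℝ) ^ κ * (p : ℝ) ^ (-κ) := by
          gcongr
          exact hγ p hp j
      _ = _ := by
          rw [← Real.rpow_add hp0]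
          simp
  have hpow : ∀ p : ℕ, p.Prime → (p : ℂ) ^ (-((κ : ℂ) + t * Complex.I)) * (p : ℂ) ^ (-ss 1 ε) =
      (p : ℂ) ^ (-((κ : ℂ) + 1 + ε + t * Complex.I)) := by
    intro p hp
    have hp0 : (p : ℂ) ≠ 0 := by exact_mod_cast hp.ne_zero
    rw [← Complex.cpow_add _ _ hp0]
    congr 1
    unfold ss
    push_cast
    ring
  have h1 := log_LP (n := 1) hε hε1 hb y hy
  have h2 : LP α (ss 1 ε) = LP γ (κ + 1 + ε + t * Complex.I) := by
    unfold LP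
    refine tprod_congr fun p => Finset.prod_congr rfl fun j _ => ?_
    rw [hα]
    simp only
    rw [mul_assoc, hpow p p.2]
  have h3 : ∑ p ∈ PR y, ((∑ j, α p j) * (p : ℂ) ^ (-ss 1 ε)).re =
      ∑ p ∈ PR y, ((∑ j, γ p j) * (p : ℂ) ^ (-((κ : ℂ) + 1 + ε + t * Complex.I))).re := by
    refine Finset.sum_congr rfl fun p hp => ?_
    rw [hα]
    simp only
    rw [← Finset.sum_mul, mul_assoc, hpow p (mem_PR.mp hp).2]
  rw [h2, h3] at h1
  exact h1

end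

section
variable {ι : Type} [Fintype ι] [DecidableEq ι] {A K r : ℝ} {N B : ∀ p : ℕ, (ι → ZMod p) → ℝ}
  {ρ : ℕ → ℝ} {b : ℕ}

/-- The trace condition: at the primes at which `B` vanishes, the trace is
`w (N + ρ) p^{κ+1}`. -/
structure TracesW (κ : ℝ) (b : ℕ) (N B : ∀ p : ℕ, (ι → ZMod p) → ℝ) (ρ : ℕ → ℝ) (w : ℕ → ℂ)
    (c : ι → ℤ) (γ : ℕ → Fin b → ℂ) : Prop where
  bound : ∀ p : ℕ, p.Prime → ∀ j, ‖γ p j‖ ≤ (p : ℝ) ^ κ
  trace : ∀ p : ℕ, p.Prime → B p (red p c) = 0 →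
    ∑ j, γ p j = w p * (((N p (red p c) + ρ p) * (p : ℝ) ^ (κ + 1) : ℝ) : ℂ)

/-- The sum over primes of the means. -/
noncomputable def MS (ρ : ℕ → ℝ) (w : ℕ → ℂ) (y : ℕ) (ε t : ℝ) : ℝ :=
  ∑ p ∈ PR y, (w p * (p : ℂ) ^ (-((ε : ℂ) + t * Complex.I))).re * ρ p

theorem term_nearW (hB : ∀ p : ℕ, p.Prime → ∀ c, B p c = 0 ∨ B p c = 1)
    (hK : 0 ≤ K) (hρ : ∀ p : ℕ, p.Prime → |ρ p| ≤ K / p) (hr : 1 ≤ r) {κ : ℝ} {w : ℕ → ℂ}
    (hw : ∀ p : ℕ, p.Prime → ‖w p‖ ≤ r) {c : ι → ℤ} {γ : ℕ → Fin b → ℂ}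
    (h : TracesW κ b N B ρ w c γ) (p : ℕ) (hp : p.Prime) (ε t : ℝ) (hε : 0 ≤ ε) :
    |((∑ j, γ p j) * (p : ℂ) ^ (-((κ : ℂ) + 1 + ε + t * Complex.I))).re -
      ((w p * (p : ℂ) ^ (-((ε : ℂ) + t * Complex.I))).re * N p (red p c) +
        (w p * (p : ℂ) ^ (-((ε : ℂ) + t * Complex.I))).re * ρ p)| ≤
      r * bb N B (b + K) p (red p c) := by
  have hp0 : (0 : ℝ) < p := by exact_mod_cast hp.pos
  have hp1 : (1 : ℝ) ≤ p := by exact_mod_cast hp.one_lt.le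
  have hpc : (p : ℂ) ≠ 0 := by exact_mod_cast hp.ne_zero
  have hcast : ((p : ℝ) : ℂ) = (p : ℂ) := by push_cast; rfl
  have hnε : ‖(p : ℂ) ^ (-((ε : ℂ) + t * Complex.I))‖ ≤ 1 := by
    rw [← hcast, Complex.norm_cpow_eq_rpow_re_of_pos hp0]
    apply Real.rpow_le_one_of_one_le_of_nonpos hp1
    simp [hε]
  have hwr : |(w p * (p : ℂ) ^ (-((ε : ℂ) + t * Complex.I))).re| ≤ r := by
    refine (Complex.abs_re_le_norm _).trans ?_
    rw [norm_mul]
    calc _ ≤ r * 1 := mul_le_mul (hw p hp) hnε (norm_nonneg _) (by linarith)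
      _ = r := mul_one r
  rcases hB p hp (red p c) with hb | hb
  · have h1 : bb N B (b + K) p (red p c) = 0 := by
      unfold bb; rw [hb, zero_mul]
    rw [h1, mul_zero, h.trace p hp hb]
    apply le_of_eq
    rw [abs_eq_zero, sub_eq_zero]
    have h2 : w p * (((N p (red p c) + ρ p) * (p : ℝ) ^ (κ + 1) : ℝ) : ℂ) *
        (p : ℂ) ^ (-((κ : ℂ) + 1 + ε + t * Complex.I)) =
        (w p * (p : ℂ) ^ (-((ε : ℂ) + t * Complex.I))) * ((N p (red p c) + ρ p : ℝ) : ℂ) := by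
      rw [Complex.ofReal_mul, Complex.ofReal_cpow hp0.le, hcast]
      have h3 : (p : ℂ) ^ (((κ + 1 : ℝ)) : ℂ) * (p : ℂ) ^ (-((κ : ℂ) + 1 + ε + t * Complex.I)) =
          (p : ℂ) ^ (-((ε : ℂ) + t * Complex.I)) := by
        rw [← Complex.cpow_add _ _ hpc]
        congr 1
        push_cast
        ring
      rw [← h3]
      ring
    rw [h2, Complex.re_mul_ofReal]
    ring
  · have h1 : bb N B (b + K) p (red p c) = |N p (red p c)| + (b + K) / p := by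
      unfold bb; rw [hb, one_mul]
    rw [h1]
    have h2 : |((∑ j, γ p j) * (p : ℂ) ^ (-((κ : ℂ) + 1 + ε + t * Complex.I))).re| ≤ b / p := by
      refine (Complex.abs_re_le_norm _).trans ?_
      have h5 : ‖(p : ℂ) ^ (-((κ : ℂ) + 1 + ε + t * Complex.I))‖ ≤ (p : ℝ) ^ (-(κ + 1)) := by
        rw [← hcast, Complex.norm_cpow_eq_rpow_re_of_pos hp0]
        apply Real.rpow_le_rpow_of_exponent_le hp1
        simp
        linarith
      rw [norm_mul]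
      have h3 : ‖∑ j, γ p j‖ ≤ b * (p : ℝ) ^ κ := by
        refine (norm_sum_le _ _).trans ?_
        refine (Finset.sum_le_sum fun j _ => h.bound p hp j).trans ?_
        rw [Finset.sum_const, nsmul_eq_mul, Finset.card_univ, Fintype.card_fin]
      calc _ ≤ b * (p : ℝ) ^ κ * (p : ℝ) ^ (-(κ + 1)) := by gcongr
        _ = _ := by
            rw [mul_assoc, ← Real.rpow_add hp0, show κ + -(κ + 1) = -1 by ring,
              Real.rpow_neg_one]
            ring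
    set v := (w p * (p : ℂ) ^ (-((ε : ℂ) + t * Complex.I))).re with hv
    have h3 : |v * N p (red p c)| ≤ r * |N p (red p c)| := by
      rw [abs_mul]
      gcongr
    have h4 : |v * ρ p| ≤ r * (K / p) := by
      rw [abs_mul]
      exact mul_le_mul hwr (hρ p hp) (abs_nonneg _) (by linarith)
    have h5 := abs_sub (((∑ j, γ p j) * (p : ℂ) ^ (-((κ : ℂ) + 1 + ε + t * Complex.I))).re)
      (v * N p (red p c) + v * ρ p)
    have h6 := abs_add_le (v * N p (red p c)) (v * ρ p)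
    have h7 : r * (|N p (red p c)| + (b + K) / p) = r * |N p (red p c)| + r * (K / p) +
        r * (b / p) := by ring
    have h8 : (b : ℝ) / p ≤ r * (b / p) := by
      have : 0 ≤ (b : ℝ) / p := by positivity
      nlinarith
    rw [h7]
    linarith

theorem sum_nearW (hB : ∀ p : ℕ, p.Prime → ∀ c, B p c = 0 ∨ B p c = 1)
    (hK : 0 ≤ K) (hρ : ∀ p : ℕ, p.Prime → |ρ p| ≤ K / p) (hr : 1 ≤ r) {κ : ℝ} {w : ℕ → ℂ}
    (hw : ∀ p : ℕ, p.Prime → ‖w p‖ ≤ r) {c : ι → ℤ} {γ : ℕ → Fin b → ℂ}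
    (h : TracesW κ b N B ρ w c γ) (y : ℕ) (ε t : ℝ) (hε : 0 ≤ ε) :
    |∑ p ∈ PR y, ((∑ j, γ p j) * (p : ℂ) ^ (-((κ : ℂ) + 1 + ε + t * Complex.I))).re -
      ((FF N w y 0 c ε t).re + MS ρ w y ε t)| ≤
      r * ∑ p ∈ PR y, bb N B (b + K) p (red p c) := by
  have h1 : (FF N w y 0 c ε t).re =
      ∑ p ∈ PR y, (w p * (p : ℂ) ^ (-((ε : ℂ) + t * Complex.I))).re * N p (red p c) := by
    unfold FF FZ
    rw [Complex.re_sum]
    refine Finset.sum_congr rfl fun p _ => ?_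
    rw [Complex.re_mul_ofReal, pow_zero, mul_one]
  rw [h1, MS, ← Finset.sum_add_distrib, ← Finset.sum_sub_distrib, Finset.mul_sum]
  refine (Finset.abs_sum_le_sum_abs _ _).trans (Finset.sum_le_sum fun p hp => ?_)
  exact term_nearW hB hK hρ hr hw h p (mem_PR.mp hp).2 ε t hε

/-- **From moments modulo primes to the L-functions near the edge line.** -/
theorem assembleW (hF : Fam A N B) (hB : ∀ p : ℕ, p.Prime → ∀ c, B p c = 0 ∨ B p c = 1)
    (hK : 0 ≤ K) (hρ : ∀ p : ℕ, p.Prime → |ρ p| ≤ K / p) (hr : 1 ≤ r) (R : ℝ) (b : ℕ) :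
    ∃ C : ℝ, ∀ (κ : ℝ) (w : ℕ → ℂ), (∀ p : ℕ, p.Prime → ‖w p‖ ≤ r) → ∀ G : ℝ → ℝ → ℝ,
      (∀ ε t : ℝ, 0 < ε → ε ≤ 1 → ∀ y : ℕ, 1 ≤ y → 1 ≤ 4 * (ε * Real.log (y + 1)) →
        |MS ρ w y ε t - G ε t| ≤ R) →
      ∀ H : ℕ, 2 ≤ H → ∀ T : ℝ, 0 ≤ T → ∀ S ⊆ box ι H, ∀ (γ : (ι → ℤ) → ℕ → Fin b → ℂ)
      (ε t : (ι → ℤ) → ℝ), (∀ c ∈ S, TracesW κ b N B ρ w c (γ c)) →
      (∀ c ∈ S, 1 / Real.log H ≤ ε c ∧ ε c ≤ 1) → (∀ c ∈ S, |t c| ≤ T) →
      ∑ c ∈ S, (Real.log ‖LP (γ c) (κ + 1 + ε c + t c * Complex.I)‖ - G (ε c) (t c)) ^ 2 ≤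
        C * (1 + T) * (box ι H).card := by
  set β : ℝ := b + K with hβ
  have hβ0 : 0 ≤ β := by positivity
  set K' : ℝ := b * SS + 128 * b + R with hK'
  set C : ℝ := 3 * (3 * (9 * K2 ι A r)) + 3 * r ^ 2 * K4 ι A β + 3 * K' ^ 2 with hC
  refine ⟨C, ?_⟩
  intro κ w hw G hG H hH T hT S hS γ ε t hγ hε ht
  obtain ⟨y, hy1, hy4, hyl⟩ := exists_y H hH
  have hlogH : 0 < Real.log H := Real.log_pos (by exact_mod_cast (by omega : 1 < H))
  set I : Finset ℤ := Finset.Icc (-⌈T⌉) ⌈T⌉ with hI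
  set M : (ι → ℤ) → ℝ := fun c => 3 * (∑ k ∈ I, G2 N w y k c) +
    3 * r ^ 2 * (∑ p ∈ PR y, bb N B β p (red p c)) ^ 2 + 3 * K' ^ 2 with hM
  have hM0 : ∀ c, 0 ≤ M c := by
    intro c
    have h1 : 0 ≤ ∑ k ∈ I, G2 N w y k c := Finset.sum_nonneg fun k _ => G2_nonneg w y k c
    simp only [hM]
    positivity
  have hone : ∀ c ∈ S, (Real.log ‖LP (γ c) (κ + 1 + ε c + t c * Complex.I)‖ -
      G (ε c) (t c)) ^ 2 ≤ M c := by
    intro c hc
    obtain ⟨hε0, hε1⟩ := hε c hc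
    have htc := ht c hc
    have hεp : 0 < ε c := lt_of_lt_of_le (by positivity) hε0
    have hyε : 1 ≤ 4 * (ε c * Real.log (y + 1)) := by
      have h4 : 1 ≤ ε c * Real.log H := by
        rw [div_le_iff₀ hlogH] at hε0
        exact hε0
      calc (1 : ℝ) ≤ ε c * Real.log H := h4
        _ ≤ ε c * (4 * Real.log (y + 1)) := by gcongr
        _ = _ := by ring
    have h1 := log_LP_at (γ c) κ (ε c) (t c) hεp hε1 (hγ c hc).bound y hy1
    have h2 := sum_nearW hB hK hρ hr hw (hγ c hc) y (ε c) (t c) hεp.le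
    rw [← hβ] at h2
    have h16 : 16 / (ε c * Real.log (y + 1)) ≤ 64 := by
      rw [div_le_iff₀ (by linarith)]
      linarith
    have h3 : 2 * (b : ℝ) * (16 / (ε c * Real.log (y + 1))) ≤ 128 * b := by
      calc _ ≤ 2 * (b : ℝ) * 64 := by gcongr
        _ = _ := by ring
    have h4 := hG (ε c) (t c) hεp hε1 y hy1 hyε
    have hk : ⌊t c⌋ ∈ I := by
      rw [hI, Finset.mem_Icc]
      obtain ⟨a1, a2⟩ := abs_le.mp htc
      constructor
      · rw [Int.le_floor]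
        push_cast
        have := Int.le_ceil T
        linarith
      · have e1 : ((⌊t c⌋ : ℤ) : ℝ) ≤ (⌈T⌉ : ℝ) := by
          have e2 := Int.floor_le (t c)
          have e3 := Int.le_ceil T
          linarith
        exact_mod_cast e1
    have h5 : ‖FF N w y 0 c (ε c) (t c)‖ ^ 2 ≤ ∑ k ∈ I, G2 N w y k c := by
      refine (le_G2 (N := N) w y c (ε c) (⌊t c⌋ : ℤ) (t c) hεp.le hε1 (Int.floor_le _)
        (Int.lt_floor_add_one _).le).trans ?_
      exact Finset.single_le_sum (f := fun k : ℤ => G2 N w y k c)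
        (fun k _ => G2_nonneg w y k c) hk
    have h5' := Complex.abs_re_le_norm (FF N w y 0 c (ε c) (t c))
    set L := Real.log ‖LP (γ c) (κ + 1 + ε c + t c * Complex.I)‖
    set S1 := ∑ p ∈ PR y, ((∑ j, γ c p j) *
      (p : ℂ) ^ (-((κ : ℂ) + 1 + ε c + t c * Complex.I))).re
    set f := (FF N w y 0 c (ε c) (t c)).re
    set z := ‖FF N w y 0 c (ε c) (t c)‖
    set v := ∑ p ∈ PR y, bb N B β p (red p c)
    set S2 := MS ρ w y (ε c) (t c)
    set g := G (ε c) (t c)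
    have e0 : L - g = (L - S1) + (S1 - (f + S2)) + f + (S2 - g) := by ring
    have i1 := abs_add_le ((L - S1) + (S1 - (f + S2)) + f) (S2 - g)
    have i2 := abs_add_le ((L - S1) + (S1 - (f + S2))) f
    have i3 := abs_add_le (L - S1) (S1 - (f + S2))
    have h6 : |L - g| ≤ z + r * v + K' := by
      rw [e0, hK']
      linarith
    have h7 : (L - g) ^ 2 ≤ (z + r * v + K') ^ 2 := by
      rw [← sq_abs (L - g)]
      gcongr
    have h8 : (z + r * v + K') ^ 2 ≤ 3 * z ^ 2 + 3 * (r * v) ^ 2 + 3 * K' ^ 2 := by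
      nlinarith [sq_nonneg (z - r * v), sq_nonneg (z - K'), sq_nonneg (r * v - K')]
    simp only [hM]
    have h9 : (r * v) ^ 2 = r ^ 2 * v ^ 2 := by ring
    rw [h9] at h8
    linarith
  have hcard : (I.card : ℝ) ≤ 3 * (1 + T) := by
    rw [hI, Int.card_Icc]
    have h1 : (⌈T⌉ + 1 - -⌈T⌉).toNat = (2 * ⌈T⌉ + 1).toNat := by congr 1; ring
    have h2 : 0 ≤ ⌈T⌉ := Int.ceil_nonneg hT
    have h3 : (((2 * ⌈T⌉ + 1).toNat : ℕ) : ℝ) = 2 * (⌈T⌉ : ℝ) + 1 := by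
      have : (((2 * ⌈T⌉ + 1).toNat : ℕ) : ℤ) = 2 * ⌈T⌉ + 1 := Int.toNat_of_nonneg (by omega)
      exact_mod_cast this
    rw [h1, h3]
    have := Int.ceil_lt_add_one T
    linarith
  have hK2 : 0 ≤ K2 ι A r := by
    have hA := hF.A0
    have := SS_nonneg
    unfold K2 K1
    positivity
  have hK4 : 0 ≤ K4 ι A β := by
    have hA := hF.A0
    have := SS_nonneg
    unfold K4
    positivity
  have h1 : EB H M ≤ C * (1 + T) := by
    rw [hM, EB_add, EB_add, EB_const, HS.EB_mul, HS.EB_mul, EB_sum]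
    have e1 : ∑ k ∈ I, EB H (fun c : ι → ℤ => G2 N w y k c) ≤ 3 * (1 + T) * (9 * K2 ι A r) := by
      refine (Finset.sum_le_sum (s := I)
        (f := fun k : ℤ => EB H (fun c : ι → ℤ => G2 N w y (k : ℝ) c))
        (g := fun _ => 9 * K2 ι A r) fun k _ => EB_G2 hF H y hy4 hr hw (k : ℝ)).trans ?_
      rw [Finset.sum_const, nsmul_eq_mul]
      gcongr
    have e2 := hF.EB_bb_sq hβ0 H y hy4
    have e3 : 3 * r ^ 2 * EB H (fun c : ι → ℤ => (∑ p ∈ PR y, bb N B β p (red p c)) ^ 2) ≤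
        3 * r ^ 2 * K4 ι A β := by gcongr
    have e4 : 0 ≤ T * (3 * r ^ 2 * K4 ι A β + 3 * K' ^ 2) := by positivity
    rw [hC]
    nlinarith
  have hB : (0 : ℝ) < (2 * H + 1 : ℝ) ^ Fintype.card ι := by positivity
  calc _ ≤ ∑ c ∈ S, M c := Finset.sum_le_sum hone
    _ ≤ ∑ c ∈ box ι H, M c := Finset.sum_le_sum_of_subset_of_nonneg hS fun c _ _ => hM0 c
    _ = EB H M * (box ι H).card := by
        rw [EB, card_box]
        field_simp
    _ ≤ _ := by gcongr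

end

end Pool.Agent.Y722.TM
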