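import Pool.Agent.Y722.TM.Assemble
import Pool.Agent.Y722.PC.Products
import Pool.Agent.Y722.LS.Bad

/-!
# The members of a linear system of hypersurfaces, times a fixed motive
-/

set_option autoImplicit false
set_option linter.unusedSectionVars false

namespace Pool.Agent.Y722.TM

open Finset Pool.Agent.Y722.HS Pool.Agent.Y722.LS Pool.Agent.Y722.PC

variable {n : ℕ} {ι : Type} [Fintype ι] [DecidableEq ι]

/-- The number of the points over `𝔽_p` of the base locus. -/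
noncomputable def zn (f : ι → MvPolynomial (Fin (n + 1)) ℤ) (p : ℕ) : ℝ :=
  (bcone f p : ℝ) / ((p : ℝ) - 1)

/-- The number of the points over `𝔽_p` of the hypersurface `∑ c i f i = 0` in `ℙⁿ`. -/
noncomputable def xn (f : ι → MvPolynomial (Fin (n + 1)) ℤ) (p : ℕ) (c : ι → ZMod p) : ℝ :=
  (lcone f c : ℝ) / ((p : ℝ) - 1)

/-- `γ p j`, `j < b`, are the eigenvalues of Frobenius at `p` on `T ⊗ N`, zeros added if necessary.
Here `N` is the motive of weight `wt` with the Frobenius eigenvalues `β p i`, `i < r`, and `T` the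
part of the middle cohomology of the hypersurface `X : ∑ c i f i = 0` in `ℙⁿ` for which the trace of
Frobenius is `(-1)^{n-1} (#X(𝔽_p) - u p)` at the primes at which `X` is smooth. -/
structure IsFrobT (f : ι → MvPolynomial (Fin (n + 1)) ℤ) (u : ℕ → ℝ) (wt : ℝ) {r : ℕ}
    (β : ℕ → Fin r → ℂ) (b : ℕ) (c : ι → ℤ) (γ : ℕ → Fin b → ℂ) : Prop where
  bound : ∀ p : ℕ, p.Prime → ∀ j, ‖γ p j‖ ≤ (p : ℝ) ^ (((n : ℝ) - 1 + wt) / 2)
  trace : ∀ (p : ℕ) [Fact p.Prime],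
    IsSmooth (MvPolynomial.map (algebraMap (ZMod p) (AlgebraicClosure (ZMod p)))
      (lform f (red p c))) →
      ∑ j, γ p j = (-1) ^ (n - 1) * ((xn f p (red p c) - u p : ℝ) : ℂ) * ∑ i, β p i

/-- The normalised trace without its mean. -/
noncomputable def NT (f : ι → MvPolynomial (Fin (n + 1)) ℤ) (p0 p : ℕ) (c : ι → ZMod p) : ℝ :=
  if p < p0 then 0 else la f p c / (p : ℝ) ^ (((n : ℝ) + 1) / 2)

/-- The indicator of bad reduction. -/
noncomputable def BT (P : MvPolynomial ι ℤ) (p0 p : ℕ) (c : ι → ZMod p) : ℝ :=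
  if p < p0 then 1 else BZ P p c

/-- The mean of the normalised trace. -/
noncomputable def rT (f : ι → MvPolynomial (Fin (n + 1)) ℤ) (u : ℕ → ℝ) (p0 p : ℕ) : ℝ :=
  if p < p0 then 0 else
    (zn f p + ((p : ℝ) ^ n - 1) / ((p : ℝ) - 1) - u p) / (p : ℝ) ^ (((n : ℝ) + 1) / 2)

theorem BT_cases (P : MvPolynomial ι ℤ) (p0 : ℕ) (p : ℕ) (c : ι → ZMod p) :
    BT P p0 p c = 0 ∨ BT P p0 p c = 1 := by
  unfold BT BZ
  split_ifs <;> simp

section
variable {f : ι → MvPolynomial (Fin (n + 1)) ℤ} {p0 : ℕ} {CZ : ℝ}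

theorem zn_nonneg (f : ι → MvPolynomial (Fin (n + 1)) ℤ) (p : ℕ) (hp : p.Prime) : 0 ≤ zn f p := by
  have hp1 : (1 : ℝ) < p := by exact_mod_cast hp.one_lt
  have : (0 : ℝ) < (p : ℝ) - 1 := by linarith
  unfold zn
  positivity

theorem famT (hn : 1 ≤ n) (P : MvPolynomial ι ℤ) (c0 : ι → ℤ) (hP : MvPolynomial.eval c0 P ≠ 0)
    (hCZ : 0 ≤ CZ) (hsep : ∀ p : ℕ, p.Prime → p0 ≤ p → Separates f p)
    (hZ : ∀ p : ℕ, p.Prime → p0 ≤ p → zn f p ≤ CZ * (p : ℝ) ^ (((n : ℝ) - 1) / 2)) :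
    Fam (4 + (1 + CZ) ^ 2 + p0 + (P.totalDegree + |(MvPolynomial.eval c0 P : ℝ)|))
      (NT f p0) (BT P p0) := by
  set A : ℝ := 4 + (1 + CZ) ^ 2 + p0 + (P.totalDegree + |(MvPolynomial.eval c0 P : ℝ)|) with hA
  have hp00 : (0 : ℝ) ≤ p0 := by positivity
  have hdeg0 : (0 : ℝ) ≤ P.totalDegree := by positivity
  have hev0 : (0 : ℝ) ≤ |(MvPolynomial.eval c0 P : ℝ)| := abs_nonneg _
  have hsq0 : (0 : ℝ) ≤ (1 + CZ) ^ 2 := by positivity
  have hA0 : 0 ≤ A := by linarith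
  have hmu : ∀ (p : ℕ) [Fact p.Prime], p0 ≤ p →
      |1 / (p : ℝ) - bcone f p / (p * ((p : ℝ) - 1))| ≤
        (1 + CZ) * (p : ℝ) ^ (((n : ℝ) - 1) / 2) / p := by
    intro p hpF hge
    have hp := hpF.out
    have hp0 : (0 : ℝ) < p := by exact_mod_cast hp.pos
    have hp1' : (1 : ℝ) < p := by exact_mod_cast hp.one_lt
    have hp1 : (0 : ℝ) < (p : ℝ) - 1 := by linarith
    have e : 1 / (p : ℝ) - bcone f p / (p * ((p : ℝ) - 1)) = (1 - zn f p) / p := by
      unfold zn; field_simp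
    rw [e, abs_div, abs_of_pos hp0]
    gcongr
    have h1 := hZ p hp hge
    have h2 := zn_nonneg f p hp
    have h3 : (1 : ℝ) ≤ (p : ℝ) ^ (((n : ℝ) - 1) / 2) := by
      apply Real.one_le_rpow hp1'.le
      have : (1 : ℝ) ≤ n := by exact_mod_cast hn
      linarith
    rw [abs_le]
    constructor <;> nlinarith
  refine ⟨by rw [hA]; nlinarith, ?_, ?_, ?_, ?_, ?_⟩
  · intro p hpF
    have hp := hpF.out
    have hp0 : (0 : ℝ) < p := by exact_mod_cast hp.pos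
    by_cases hlt : p < p0
    · have h1 : (fun c : ι → ZMod p => NT f p0 p c ^ 2) = fun _ => 0 := by
        funext c; simp [NT, hlt]
      rw [h1, EM_const]
      positivity
    · have hge : p0 ≤ p := by omega
      have hx : (0 : ℝ) < (p : ℝ) ^ (((n : ℝ) + 1) / 2) := by positivity
      have hsq : ((p : ℝ) ^ (((n : ℝ) + 1) / 2)) ^ 2 = (p : ℝ) ^ (n + 1) := by
        rw [← Real.rpow_natCast, ← Real.rpow_mul hp0.le, ← Real.rpow_natCast]
        congr 1
        push_cast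
        ring
      have hsq' : ((p : ℝ) ^ (((n : ℝ) - 1) / 2)) ^ 2 = (p : ℝ) ^ (n - 1) := by
        rw [← Real.rpow_natCast, ← Real.rpow_mul hp0.le, ← Real.rpow_natCast]
        congr 1
        push_cast [Nat.cast_sub hn]
        ring
      have h1 : (fun c : ι → ZMod p => NT f p0 p c ^ 2) =
          fun c => (1 / (p : ℝ) ^ (n + 1)) * la f p c ^ 2 := by
        funext c
        rw [NT, if_neg hlt, div_pow, hsq]
        ring
      rw [h1, EM_mul, EM]
      have h2 := sum_la_sq (f := f) (p := p) hn (hsep p hp hge)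
      have h3 : (1 / (p : ℝ) - bcone f p / (p * ((p : ℝ) - 1))) ^ 2 ≤
          ((1 + CZ) * (p : ℝ) ^ (((n : ℝ) - 1) / 2) / p) ^ 2 := by
        rw [← sq_abs]
        gcongr
        exact hmu p hge
      have h3' : ((1 + CZ) * (p : ℝ) ^ (((n : ℝ) - 1) / 2) / p) ^ 2 =
          (1 + CZ) ^ 2 * (p : ℝ) ^ (n - 1) / (p : ℝ) ^ 2 := by
        rw [div_pow, mul_pow, hsq']
      rw [h3'] at h3
      have hM : (0 : ℝ) < (p : ℝ) ^ Fintype.card ι := by positivity
      have h4 : (∑ c : ι → ZMod p, la f p c ^ 2) / (p : ℝ) ^ Fintype.card ι ≤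
          4 * (p : ℝ) ^ (n - 1) + (1 + CZ) ^ 2 * (p : ℝ) ^ (n - 1) / (p : ℝ) ^ 2 := by
        rw [div_le_iff₀ hM]
        refine h2.trans ?_
        gcongr
      have hp1 : (1 : ℝ) ≤ p := by exact_mod_cast hp.one_lt.le
      have hpn : (p : ℝ) ^ (n + 1) = (p : ℝ) ^ (n - 1) * (p : ℝ) ^ 2 := by
        rw [← pow_add]
        congr 1
        omega
      calc _ ≤ 1 / (p : ℝ) ^ (n + 1) *
            (4 * (p : ℝ) ^ (n - 1) + (1 + CZ) ^ 2 * (p : ℝ) ^ (n - 1) / (p : ℝ) ^ 2) := by gcongr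
        _ = (4 + (1 + CZ) ^ 2 / (p : ℝ) ^ 2) / (p : ℝ) ^ 2 := by
            rw [hpn]
            field_simp
        _ ≤ A / (p : ℝ) ^ 2 := by
            gcongr
            have h5 : (1 + CZ) ^ 2 / (p : ℝ) ^ 2 ≤ (1 + CZ) ^ 2 :=
              div_le_self hsq0 (one_le_pow₀ hp1)
            linarith
  · intro p hpF
    have hp := hpF.out
    have hp0 : (0 : ℝ) < p := by exact_mod_cast hp.pos
    by_cases hlt : p < p0
    · have h1 : (fun c : ι → ZMod p => NT f p0 p c) = fun _ => 0 := by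
        funext c; simp [NT, hlt]
      rw [h1, EM_const, abs_zero]
      positivity
    · have hge : p0 ≤ p := by omega
      have hx : (0 : ℝ) < (p : ℝ) ^ (((n : ℝ) + 1) / 2) := by positivity
      have h1 : (fun c : ι → ZMod p => NT f p0 p c) =
          fun c => (1 / (p : ℝ) ^ (((n : ℝ) + 1) / 2)) * la f p c := by
        funext c
        rw [NT, if_neg hlt]
        ring
      have hM : (0 : ℝ) < (p : ℝ) ^ Fintype.card ι := by positivity
      rw [h1, EM_mul, EM, sum_la, mul_div_assoc, div_self hM.ne', mul_one, abs_mul,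
        abs_of_pos (by positivity : (0 : ℝ) < 1 / (p : ℝ) ^ (((n : ℝ) + 1) / 2))]
      have h2 := hmu p hge
      have hpn : (p : ℝ) ^ (((n : ℝ) + 1) / 2) = (p : ℝ) ^ (((n : ℝ) - 1) / 2) * p := by
        rw [← Real.rpow_add_one hp0.ne']
        congr 1
        ring
      calc _ ≤ 1 / (p : ℝ) ^ (((n : ℝ) + 1) / 2) *
            ((1 + CZ) * (p : ℝ) ^ (((n : ℝ) - 1) / 2) / p) := by gcongr
        _ = (1 + CZ) / (p : ℝ) ^ 2 := by rw [hpn]; field_simp
        _ ≤ A / (p : ℝ) ^ 2 := by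
            gcongr
            nlinarith
  · intro p c
    rcases BT_cases P p0 p c with h | h <;> rw [h] <;> norm_num
  · intro p c
    rcases BT_cases P p0 p c with h | h <;> rw [h] <;> norm_num
  · intro p hpF
    have hp := hpF.out
    have hp0 : (0 : ℝ) < p := by exact_mod_cast hp.pos
    by_cases hlt : p < p0
    · have h1 : (fun c : ι → ZMod p => BT P p0 p c) = fun _ => 1 := by
        funext c; simp [BT, hlt]
      rw [h1, EM_const, le_div_iff₀ hp0, one_mul]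
      have : (p : ℝ) ≤ p0 := by exact_mod_cast hlt.le
      linarith
    · have h1 : (fun c : ι → ZMod p => BT P p0 p c) = fun c => BZ P p c := by
        funext c; simp [BT, hlt]
      rw [h1]
      refine (EM_BZ P c0 hP p).trans ?_
      gcongr
      linarith

theorem rT_bd {u : ℕ → ℝ} {C0 : ℝ} (hC0 : 0 ≤ C0)
    (hu : ∀ p : ℕ, p.Prime → p0 ≤ p →
      |zn f p + ((p : ℝ) ^ n - 1) / ((p : ℝ) - 1) - u p| ≤ C0 * (p : ℝ) ^ ((n : ℝ) / 2 - 1))
    (p : ℕ) (hp : p.Prime) : |rT f u p0 p| ≤ C0 * (1 / (p : ℝ) ^ ((3 : ℝ) / 2)) := by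
  have hp0 : (0 : ℝ) < p := by exact_mod_cast hp.pos
  unfold rT
  split_ifs with h
  · rw [abs_zero]; positivity
  · rw [abs_div, abs_of_pos (by positivity : (0 : ℝ) < (p : ℝ) ^ (((n : ℝ) + 1) / 2)),
      div_le_iff₀ (by positivity)]
    refine (hu p hp (by omega)).trans (le_of_eq ?_)
    have h1 : (p : ℝ) ^ (((n : ℝ) + 1) / 2) = (p : ℝ) ^ ((n : ℝ) / 2 - 1) * (p : ℝ) ^ ((3 : ℝ) / 2) := by
      rw [← Real.rpow_add hp0]
      congr 1
      ring
    rw [h1]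
    field_simp

theorem tracesT (hn : 1 ≤ n) {P : MvPolynomial ι ℤ}
    (hP : ∀ (K : Type) [Field K] (c : ι → K), MvPolynomial.eval₂ (Int.castRingHom K) c P ≠ 0 →
      IsSmooth (lform f c)) {u : ℕ → ℝ} {wt : ℝ} {r : ℕ} {β : ℕ → Fin r → ℂ} {b : ℕ} {c : ι → ℤ}
    {γ : ℕ → Fin b → ℂ} (h : IsFrobT f u wt β b c γ) :
    TracesW (((n : ℝ) - 1 + wt) / 2) b (NT f p0) (BT P p0) (rT f u p0)
      (fun p => (-1) ^ (n - 1) * (∑ i, β p i) * (((p : ℝ) ^ (-(wt / 2)) : ℝ) : ℂ)) c γ := by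
  refine ⟨h.bound, fun p hp hb => ?_⟩
  have := Fact.mk hp
  have hp0 : (0 : ℝ) < p := by exact_mod_cast hp.pos
  have hp1' : (1 : ℝ) < p := by exact_mod_cast hp.one_lt
  have hp1 : ((p : ℝ) - 1) ≠ 0 := by linarith
  have hlt : ¬ p < p0 := by
    intro hlt
    rw [BT, if_pos hlt] at hb
    norm_num at hb
  rw [BT, if_neg hlt, BZ] at hb
  have hb2 : MvPolynomial.eval₂ (Int.castRingHom (ZMod p)) (red p c) P ≠ 0 := by
    intro h0
    rw [if_pos h0] at hb
    norm_num at hb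
  have hsm : IsSmooth (MvPolynomial.map (algebraMap (ZMod p) (AlgebraicClosure (ZMod p)))
      (lform f (red p c))) := by
    rw [map_lform]
    apply hP
    have h2 : MvPolynomial.eval₂ (Int.castRingHom (AlgebraicClosure (ZMod p)))
        (fun i => algebraMap (ZMod p) (AlgebraicClosure (ZMod p)) (red p c i)) P =
        algebraMap (ZMod p) (AlgebraicClosure (ZMod p))
          (MvPolynomial.eval₂ (Int.castRingHom (ZMod p)) (red p c) P) := by
      rw [MvPolynomial.eval₂_comp_left, RingHom.ext_int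
        ((algebraMap (ZMod p) (AlgebraicClosure (ZMod p))).comp (Int.castRingHom (ZMod p)))
        (Int.castRingHom (AlgebraicClosure (ZMod p)))]
      rfl
    rw [h2]
    intro h3
    exact hb2 ((map_eq_zero _).mp h3)
  rw [h.trace p hsm]
  have e1 : xn f p (red p c) - u p =
      (NT f p0 p (red p c) + rT f u p0 p) * (p : ℝ) ^ (((n : ℝ) + 1) / 2) := by
    have hx : (p : ℝ) ^ (((n : ℝ) + 1) / 2) ≠ 0 := by positivity
    rw [NT, rT, if_neg hlt, if_neg hlt, add_mul, div_mul_cancel₀ _ hx, div_mul_cancel₀ _ hx]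
    unfold xn zn la dcone
    field_simp
    ring
  have e2 : (p : ℝ) ^ (((n : ℝ) - 1 + wt) / 2 + 1) =
      (p : ℝ) ^ (((n : ℝ) + 1) / 2) * (p : ℝ) ^ (wt / 2) := by
    rw [← Real.rpow_add hp0]
    congr 1
    ring
  have e3 : (((p : ℝ) ^ (-(wt / 2)) : ℝ) : ℂ) * (((p : ℝ) ^ (wt / 2) : ℝ) : ℂ) = 1 := by
    rw [← Complex.ofReal_mul, ← Real.rpow_add hp0, neg_add_cancel, Real.rpow_zero,
      Complex.ofReal_one]
  rw [e1, e2]
  simp only [Complex.ofReal_mul, Complex.ofReal_add]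
  linear_combination (-((-1) ^ (n - 1) * (∑ i, β p i) *
    ((NT f p0 p (red p c) : ℂ) + (rT f u p0 p : ℂ)) *
      (((p : ℝ) ^ (((n : ℝ) + 1) / 2) : ℝ) : ℂ))) * e3

/-- **The tensor products of the members of a linear system with a fixed motive.** -/
theorem tensor {d : ℕ} (hn : 1 ≤ n) (hd : 1 ≤ d) (f : ι → MvPolynomial (Fin (n + 1)) ℤ)
    (hf : ∀ i, (f i).IsHomogeneous d) (c0 : ι → ℤ)
    (hs : IsSmooth (lform f (fun i => (c0 i : ℂ)))) (p0 : ℕ)
    (hsep : ∀ p : ℕ, p.Prime → p0 ≤ p → Separates f p) (u : ℕ → ℝ) (C0 : ℝ)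
    (hZ : ∀ p : ℕ, p.Prime → p0 ≤ p → zn f p ≤ C0 * (p : ℝ) ^ (((n : ℝ) - 1) / 2))
    (hu : ∀ p : ℕ, p.Prime → p0 ≤ p →
      |zn f p + ((p : ℝ) ^ n - 1) / ((p : ℝ) - 1) - u p| ≤ C0 * (p : ℝ) ^ ((n : ℝ) / 2 - 1))
    (r b : ℕ) : ∃ C : ℝ, ∀ (wt : ℝ) (β : ℕ → Fin r → ℂ),
      (∀ p : ℕ, p.Prime → ∀ i, ‖β p i‖ ≤ (p : ℝ) ^ (wt / 2)) →
      ∀ H : ℕ, 2 ≤ H → ∀ T : ℝ, 0 ≤ T → ∀ S ⊆ box ι H, ∀ (γ : (ι → ℤ) → ℕ → Fin b → ℂ)
      (ε t : (ι → ℤ) → ℝ), (∀ c ∈ S, IsFrobT f u wt β b c (γ c)) →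
      (∀ c ∈ S, 1 / Real.log H ≤ ε c ∧ ε c ≤ 1) → (∀ c ∈ S, |t c| ≤ T) →
      ∑ c ∈ S, Real.log ‖LP (γ c) (((n : ℂ) + 1 + wt) / 2 + ε c + t c * Complex.I)‖ ^ 2 ≤
        C * (1 + T) * (box ι H).card := by
  obtain ⟨P, hP0, hP⟩ := exists_disc f hd hf c0 hs
  have hC0' : 0 ≤ |C0| := abs_nonneg _
  have hle : ∀ x : ℝ, 0 ≤ x → C0 * x ≤ |C0| * x := fun x hx =>
    mul_le_mul_of_nonneg_right (le_abs_self _) hx
  have hfam := famT (f := f) (p0 := p0) hn P c0 hP0 hC0' hsep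
    (fun p hp hge => (hZ p hp hge).trans (hle _ (by positivity)))
  have hρ := rT_bd (f := f) (p0 := p0) (u := u) hC0'
    (fun p hp hge => (hu p hp hge).trans (hle _ (by positivity)))
  have hρ' : ∀ p : ℕ, p.Prime → |rT f u p0 p| ≤ |C0| / p := by
    intro p hp
    refine (hρ p hp).trans ?_
    have hp0 : (0 : ℝ) < p := by exact_mod_cast hp.pos
    have hp1 : (1 : ℝ) ≤ p := by exact_mod_cast hp.one_lt.le
    rw [mul_one_div]
    gcongr
    have h1 : (p : ℝ) ^ (1 : ℝ) ≤ (p : ℝ) ^ ((3 : ℝ) / 2) :=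
      Real.rpow_le_rpow_of_exponent_le hp1 (by norm_num)
    rwa [Real.rpow_one] at h1
  obtain ⟨C, hC⟩ := assembleW (r := (r : ℝ) + 1) hfam (fun p _ c => BT_cases P p0 p c) hC0' hρ'
    (by have : (0 : ℝ) ≤ r := by positivity
        linarith) (((r : ℝ) + 1) * (|C0| * SS)) b
  refine ⟨C, fun wt β hβ H hH T hT S hS γ ε t hγ hε ht => ?_⟩
  set w : ℕ → ℂ := fun p => (-1) ^ (n - 1) * (∑ i, β p i) * (((p : ℝ) ^ (-(wt / 2)) : ℝ) : ℂ)
    with hwdef
  have hw : ∀ p : ℕ, p.Prime → ‖w p‖ ≤ (r : ℝ) + 1 := by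
    intro p hp
    have hp0 : (0 : ℝ) < p := by exact_mod_cast hp.pos
    rw [hwdef]
    simp only [norm_mul, norm_pow, norm_neg, norm_one, one_pow, one_mul, Complex.norm_real]
    rw [Real.norm_of_nonneg (by positivity)]
    have h3 : ‖∑ i, β p i‖ ≤ r * (p : ℝ) ^ (wt / 2) := by
      refine (norm_sum_le _ _).trans ?_
      refine (Finset.sum_le_sum fun i _ => hβ p hp i).trans ?_
      rw [Finset.sum_const, nsmul_eq_mul, Finset.card_univ, Fintype.card_fin]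
    calc _ ≤ r * (p : ℝ) ^ (wt / 2) * (p : ℝ) ^ (-(wt / 2)) := by gcongr
      _ = r := by
          rw [mul_assoc, ← Real.rpow_add hp0, add_neg_cancel, Real.rpow_zero, mul_one]
      _ ≤ _ := by linarith
  have h1 := hC (((n : ℝ) - 1 + wt) / 2) w hw (fun _ _ => 0) (by
    intro ε t hε hε1 y hy _
    rw [sub_zero, MS]
    refine (Finset.abs_sum_le_sum_abs _ _).trans ?_
    have h2 : ∀ p ∈ PR y, |(w p * (p : ℂ) ^ (-((ε : ℂ) + t * Complex.I))).re * rT f u p0 p| ≤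
        ((r : ℝ) + 1) * (|C0| * (1 / (p : ℝ) ^ ((3 : ℝ) / 2))) := by
      intro p hp
      have hpp := (mem_PR.mp hp).2
      have hp0 : (0 : ℝ) < p := by exact_mod_cast hpp.pos
      have hp1 : (1 : ℝ) ≤ p := by exact_mod_cast hpp.one_lt.le
      have hcast : ((p : ℝ) : ℂ) = (p : ℂ) := by push_cast; rfl
      have hnε : ‖(p : ℂ) ^ (-((ε : ℂ) + t * Complex.I))‖ ≤ 1 := by
        rw [← hcast, Complex.norm_cpow_eq_rpow_re_of_pos hp0]
        apply Real.rpow_le_one_of_one_le_of_nonpos hp1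
        simp [hε.le]
      rw [abs_mul]
      refine mul_le_mul ?_ (hρ p hpp) (abs_nonneg _) (by positivity)
      refine (Complex.abs_re_le_norm _).trans ?_
      rw [norm_mul]
      calc _ ≤ ((r : ℝ) + 1) * 1 :=
            mul_le_mul (hw p hpp) hnε (norm_nonneg _) (by positivity)
        _ = _ := mul_one _
    refine (Finset.sum_le_sum h2).trans ?_
    rw [← Finset.mul_sum, ← Finset.mul_sum]
    have h3 := sum_le_SS (PR y)
    gcongr) H hH T hT S hS γ ε t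
    (fun c hc => tracesT hn hP (hγ c hc)) hε ht
  simp only [sub_zero] at h1
  have h4 : ∀ c, (((((n : ℝ) - 1 + wt) / 2 : ℝ) : ℂ) + 1 + ε c + t c * Complex.I) =
      ((n : ℂ) + 1 + wt) / 2 + ε c + t c * Complex.I := by
    intro c
    push_cast
    ring
  simp only [h4] at h1
  exact h1

end

end Pool.Agent.Y722.TM
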