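import Pool.Agent.Y722.LS.Sup
import Pool.Agent.Y722.HS.Main

/-!
# A majorant for the sums over primes on a rectangle
-/

set_option autoImplicit false

namespace Pool.Agent.Y722.TM

open Finset Pool.Agent.Y722.HS Pool.Agent.Y722.LS

/-- A Sobolev inequality on an interval of length one. -/
theorem sob (g g' : ℝ → ℂ) (hg : ∀ u, HasDerivAt g (g' u) u) (hg' : Continuous g') (a b : ℝ)
    (hab : a ≤ b) (hb : b ≤ a + 1) :
    ‖g b‖ ^ 2 ≤ ‖g a‖ ^ 2 + ∫ u in a..(a + 1), (‖g u‖ ^ 2 + ‖g' u‖ ^ 2) := by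
  have hgc : Continuous g := continuous_iff_continuousAt.mpr fun u => (hg u).continuousAt
  have hd : ∀ u : ℝ, HasDerivAt (fun u => ‖g u‖ ^ 2) (2 * inner ℝ (g u) (g' u)) u :=
    fun u => (hg u).norm_sq
  have hc2 : Continuous fun u => 2 * inner ℝ (g u) (g' u) := continuous_const.mul (hgc.inner hg')
  have hc3 : Continuous fun u => ‖g u‖ ^ 2 + ‖g' u‖ ^ 2 := (hgc.norm.pow 2).add (hg'.norm.pow 2)
  have h2 : ∫ u in a..b, 2 * inner ℝ (g u) (g' u) = ‖g b‖ ^ 2 - ‖g a‖ ^ 2 :=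
    intervalIntegral.integral_eq_sub_of_hasDerivAt (fun u _ => hd u) (hc2.intervalIntegrable _ _)
  have h4 : ∫ u in a..b, 2 * inner ℝ (g u) (g' u) ≤ ∫ u in a..b, (‖g u‖ ^ 2 + ‖g' u‖ ^ 2) := by
    apply intervalIntegral.integral_mono_on hab (hc2.intervalIntegrable _ _)
      (hc3.intervalIntegrable _ _)
    intro u _
    have h5 := real_inner_le_norm (g u) (g' u)
    nlinarith [sq_nonneg (‖g u‖ - ‖g' u‖)]
  have h5 : ∫ u in a..b, (‖g u‖ ^ 2 + ‖g' u‖ ^ 2) ≤ ∫ u in a..(a + 1), (‖g u‖ ^ 2 + ‖g' u‖ ^ 2) := by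
    apply intervalIntegral.integral_mono_interval le_rfl hab hb
    · exact Filter.Eventually.of_forall fun u => by positivity
    · exact hc3.intervalIntegrable _ _
  linarith

set_option linter.unusedSectionVars false

section
variable {ι : Type} [Fintype ι] [DecidableEq ι] {A : ℝ} {N B : ∀ p : ℕ, (ι → ZMod p) → ℝ}

/-- The sum over the primes up to `y` at a complex point. -/
noncomputable def FZ (N : ∀ p : ℕ, (ι → ZMod p) → ℝ) (w : ℕ → ℂ) (y j : ℕ) (c : ι → ℤ) (z : ℂ) : ℂ :=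
  ∑ p ∈ PR y, (w p * (Real.log p : ℂ) ^ j * (p : ℂ) ^ (-z)) * (N p (red p c) : ℂ)

theorem hasDerivAt_FZ (w : ℕ → ℂ) (y j : ℕ) (c : ι → ℤ) (z : ℂ) :
    HasDerivAt (FZ N w y j c) (-FZ N w y (j + 1) c z) z := by
  unfold FZ
  rw [← Finset.sum_neg_distrib]
  refine HasDerivAt.fun_sum fun p hp => ?_
  have hp0 : (p : ℂ) ≠ 0 := by exact_mod_cast (mem_PR.mp hp).2.ne_zero
  have h1 : HasDerivAt (fun z : ℂ => (p : ℂ) ^ (-z)) ((p : ℂ) ^ (-z) * Complex.log p * (-1)) z :=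
    (hasDerivAt_neg z).const_cpow (Or.inl hp0)
  have h2 := (h1.const_mul (w p * (Real.log p : ℂ) ^ j)).mul_const (N p (red p c) : ℂ)
  refine h2.congr_deriv ?_
  have h3 : Complex.log p = (Real.log p : ℂ) := by
    rw [Complex.ofReal_log (Nat.cast_nonneg p)]
    simp
  rw [h3, pow_succ]
  ring

/-- The sum at the point `u + τ i`. -/
noncomputable def FF (N : ∀ p : ℕ, (ι → ZMod p) → ℝ) (w : ℕ → ℂ) (y j : ℕ) (c : ι → ℤ)
    (u τ : ℝ) : ℂ :=
  FZ N w y j c (u + τ * Complex.I)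

theorem continuous_FZ (w : ℕ → ℂ) (y j : ℕ) (c : ι → ℤ) : Continuous (FZ N w y j c) :=
  continuous_iff_continuousAt.mpr fun z => (hasDerivAt_FZ w y j c z).continuousAt

theorem continuous_FF (w : ℕ → ℂ) (y j : ℕ) (c : ι → ℤ) :
    Continuous fun x : ℝ × ℝ => FF N w y j c x.1 x.2 := by
  unfold FF
  exact (continuous_FZ w y j c).comp (by fun_prop)

theorem continuous_FF_u (w : ℕ → ℂ) (y j : ℕ) (c : ι → ℤ) (τ : ℝ) :
    Continuous fun u : ℝ => FF N w y j c u τ := by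
  unfold FF
  exact (continuous_FZ w y j c).comp (by fun_prop)

theorem continuous_FF_t (w : ℕ → ℂ) (y j : ℕ) (c : ι → ℤ) (u : ℝ) :
    Continuous fun τ : ℝ => FF N w y j c u τ := by
  unfold FF
  exact (continuous_FZ w y j c).comp (by fun_prop)

theorem hasDerivAt_FF_u (w : ℕ → ℂ) (y j : ℕ) (c : ι → ℤ) (u τ : ℝ) :
    HasDerivAt (fun u => FF N w y j c u τ) (-FF N w y (j + 1) c u τ) u := by
  have h1 : HasDerivAt (fun u : ℝ => (u : ℂ) + τ * Complex.I) 1 u :=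
    (Complex.ofRealCLM.hasDerivAt (x := u)).add_const _
  have h2 := (hasDerivAt_FZ (N := N) w y j c (u + τ * Complex.I)).scomp u h1
  unfold FF
  refine h2.congr_deriv ?_
  simp

theorem hasDerivAt_FF_t (w : ℕ → ℂ) (y j : ℕ) (c : ι → ℤ) (u τ : ℝ) :
    HasDerivAt (fun τ => FF N w y j c u τ) (-Complex.I * FF N w y (j + 1) c u τ) τ := by
  have h1 : HasDerivAt (fun τ : ℝ => (u : ℂ) + τ * Complex.I) (1 * Complex.I) τ :=
    ((Complex.ofRealCLM.hasDerivAt (x := τ)).mul_const Complex.I).const_add _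
  have h2 := (hasDerivAt_FZ (N := N) w y j c (u + τ * Complex.I)).scomp τ h1
  unfold FF
  refine h2.congr_deriv ?_
  simp

/-- The majorant on a vertical segment. -/
noncomputable def PP (N : ∀ p : ℕ, (ι → ZMod p) → ℝ) (w : ℕ → ℂ) (y j : ℕ) (t : ℝ) (c : ι → ℤ)
    (u : ℝ) : ℝ :=
  ‖FF N w y j c u t‖ ^ 2 +
    ∫ τ in t..(t + 1), (‖FF N w y j c u τ‖ ^ 2 + ‖FF N w y (j + 1) c u τ‖ ^ 2)

theorem le_PP (w : ℕ → ℂ) (y j : ℕ) (c : ι → ℤ) (u t τ : ℝ) (h1 : t ≤ τ) (h2 : τ ≤ t + 1) :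
    ‖FF N w y j c u τ‖ ^ 2 ≤ PP N w y j t c u := by
  have hc : Continuous fun τ => -Complex.I * FF N w y (j + 1) c u τ :=
    continuous_const.mul (continuous_FF_t w y (j + 1) c u)
  have h3 := sob (fun τ => FF N w y j c u τ) (fun τ => -Complex.I * FF N w y (j + 1) c u τ)
    (fun τ => hasDerivAt_FF_t w y j c u τ) hc t τ h1 h2
  refine h3.trans (le_of_eq ?_)
  unfold PP
  congr 1
  refine intervalIntegral.integral_congr fun τ _ => ?_
  simp

theorem continuous_PP (w : ℕ → ℂ) (y j : ℕ) (t : ℝ) (c : ι → ℤ) :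
    Continuous fun u => PP N w y j t c u := by
  have h1 : Continuous fun u : ℝ => ‖FF N w y j c u t‖ ^ 2 :=
    (continuous_FF_u w y j c t).norm.pow 2
  have h2 : Continuous (Function.uncurry fun u τ : ℝ =>
      ‖FF N w y j c u τ‖ ^ 2 + ‖FF N w y (j + 1) c u τ‖ ^ 2) :=
    (((continuous_FF w y j c).norm).pow 2).add (((continuous_FF w y (j + 1) c).norm).pow 2)
  have h3 : Continuous fun u : ℝ =>
      ∫ τ in t..(t + 1), (‖FF N w y j c u τ‖ ^ 2 + ‖FF N w y (j + 1) c u τ‖ ^ 2) :=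
    intervalIntegral.continuous_parametric_intervalIntegral_of_continuous' h2 _ _
  unfold PP
  exact h1.add h3

/-- The majorant on the rectangle. -/
noncomputable def G2 (N : ∀ p : ℕ, (ι → ZMod p) → ℝ) (w : ℕ → ℂ) (y : ℕ) (t : ℝ) (c : ι → ℤ) : ℝ :=
  PP N w y 0 t c 0 + ∫ u in (0 : ℝ)..1, (PP N w y 0 t c u + PP N w y 1 t c u)

theorem le_G2 (w : ℕ → ℂ) (y : ℕ) (c : ι → ℤ) (ε t τ : ℝ) (h0 : 0 ≤ ε) (h01 : ε ≤ 1)
    (h1 : t ≤ τ) (h2 : τ ≤ t + 1) : ‖FF N w y 0 c ε τ‖ ^ 2 ≤ G2 N w y t c := by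
  have hc : Continuous fun u => -FF N w y 1 c u τ := (continuous_FF_u w y 1 c τ).neg
  have hc0 : Continuous fun u => FF N w y 0 c u τ := continuous_FF_u w y 0 c τ
  have h3 := sob (fun u => FF N w y 0 c u τ) (fun u => -FF N w y 1 c u τ)
    (fun u => hasDerivAt_FF_u w y 0 c u τ) hc 0 ε h0 (by linarith)
  rw [zero_add] at h3
  have h4 := le_PP (N := N) w y 0 c 0 t τ h1 h2
  have h5 : ∫ u in (0 : ℝ)..1, (‖FF N w y 0 c u τ‖ ^ 2 + ‖-FF N w y 1 c u τ‖ ^ 2) ≤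
      ∫ u in (0 : ℝ)..1, (PP N w y 0 t c u + PP N w y 1 t c u) := by
    apply intervalIntegral.integral_mono_on zero_le_one
    · exact ((hc0.norm.pow 2).add (hc.norm.pow 2)).intervalIntegrable _ _
    · exact ((continuous_PP w y 0 t c).add (continuous_PP w y 1 t c)).intervalIntegrable _ _
    · intro u _
      rw [norm_neg]
      exact add_le_add (le_PP w y 0 c u t τ h1 h2) (le_PP w y 1 c u t τ h1 h2)
  unfold G2
  linarith

theorem log_pow_le (p : ℕ) (hp : p.Prime) (j : ℕ) (hj : j ≤ 2) :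
    Real.log p ^ j ≤ 64 * (p : ℝ) ^ ((1 : ℝ) / 4) := by
  have hp1 : (1 : ℝ) ≤ p := by exact_mod_cast hp.one_lt.le
  have hl : 0 ≤ Real.log p := Real.log_nonneg hp1
  have h1 : (1 : ℝ) ≤ (p : ℝ) ^ ((1 : ℝ) / 4) := Real.one_le_rpow hp1 (by norm_num)
  have h2 : Real.log p ≤ (p : ℝ) ^ ((1 : ℝ) / 8) / (1 / 8) :=
    Real.log_le_rpow_div (by linarith) (by norm_num)
  have h3 : ((p : ℝ) ^ ((1 : ℝ) / 8)) ^ 2 = (p : ℝ) ^ ((1 : ℝ) / 4) := by
    rw [← Real.rpow_natCast, ← Real.rpow_mul (by linarith)]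
    norm_num
  have h4 : (1 : ℝ) ≤ (p : ℝ) ^ ((1 : ℝ) / 8) := Real.one_le_rpow hp1 (by norm_num)
  interval_cases j
  · rw [pow_zero]; linarith
  · rw [pow_one]
    nlinarith
  · have h5 : Real.log p ^ 2 ≤ ((p : ℝ) ^ ((1 : ℝ) / 8) / (1 / 8)) ^ 2 := by gcongr
    rw [div_pow, h3] at h5
    norm_num at h5 ⊢
    linarith

/-- The constant of the second moment at a complex point. -/
noncomputable def K2 (ι : Type) [Fintype ι] (A r : ℝ) : ℝ := 512 * r ^ 2 * K1 ι A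

theorem norm_wt {w : ℕ → ℂ} {r : ℝ} (hw : ∀ p : ℕ, p.Prime → ‖w p‖ ≤ r) (p : ℕ) (hp : p.Prime)
    (j : ℕ) (hj : j ≤ 2) (u τ : ℝ) (hu : 0 ≤ u) :
    ‖w p * (Real.log p : ℂ) ^ j * (p : ℂ) ^ (-((u : ℂ) + τ * Complex.I))‖ ≤
      r * (64 * (p : ℝ) ^ ((1 : ℝ) / 4)) := by
  have hp0 : (0 : ℝ) < p := by exact_mod_cast hp.pos
  have hp1 : (1 : ℝ) ≤ p := by exact_mod_cast hp.one_lt.le
  have hl : 0 ≤ Real.log p := Real.log_nonneg hp1
  have h1 : ‖(p : ℂ) ^ (-((u : ℂ) + τ * Complex.I))‖ = (p : ℝ) ^ (-u) := by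
    have : ((p : ℝ) : ℂ) = (p : ℂ) := by push_cast; rfl
    rw [← this, Complex.norm_cpow_eq_rpow_re_of_pos hp0]
    congr 1
    simp
  have h2 : ‖(Real.log p : ℂ) ^ j‖ = Real.log p ^ j := by
    rw [norm_pow, Complex.norm_real, Real.norm_of_nonneg hl]
  have h3 : (p : ℝ) ^ (-u) ≤ 1 := Real.rpow_le_one_of_one_le_of_nonpos hp1 (by linarith)
  have h4 := log_pow_le p hp j hj
  have h5 := hw p hp
  have h6 : 0 ≤ r := (norm_nonneg _).trans h5
  rw [norm_mul, norm_mul, h1, h2]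
  calc _ ≤ r * (64 * (p : ℝ) ^ ((1 : ℝ) / 4)) * 1 := by gcongr
    _ = _ := mul_one _

theorem EB_WW_scaled (h : Fam A N B) (H y : ℕ) (hy : y ^ 4 ≤ H) {r : ℝ} (hr : 1 ≤ r) (W : ℕ → ℝ)
    (hW : ∀ p ∈ PR y, |W p| ≤ r * (64 * (p : ℝ) ^ ((1 : ℝ) / 4))) :
    EB H (fun c : ι → ℤ => WW N y W c ^ 2) ≤ 256 * r ^ 2 * K1 ι A := by
  have h1 := h.EB_WW_sq H y hy (fun p => W p / (16 * r)) (by
    intro p hp
    have h2 := hW p hp
    rw [abs_div, abs_of_pos (by positivity : (0 : ℝ) < 16 * r), div_le_iff₀ (by positivity)]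
    linarith)
  have h2 : ∀ c : ι → ℤ, WW N y W c ^ 2 = (256 * r ^ 2) * WW N y (fun p => W p / (16 * r)) c ^ 2 := by
    intro c
    have h3 : WW N y W c = (16 * r) * WW N y (fun p => W p / (16 * r)) c := by
      unfold WW
      rw [Finset.mul_sum]
      refine Finset.sum_congr rfl fun p _ => ?_
      field_simp
    rw [h3]
    ring
  simp only [h2]
  rw [HS.EB_mul]
  gcongr

theorem EB_FF_sq (h : Fam A N B) (H y : ℕ) (hy : y ^ 4 ≤ H) {r : ℝ} (hr : 1 ≤ r) {w : ℕ → ℂ}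
    (hw : ∀ p : ℕ, p.Prime → ‖w p‖ ≤ r) (j : ℕ) (hj : j ≤ 2) (u τ : ℝ) (hu : 0 ≤ u) :
    EB H (fun c : ι → ℤ => ‖FF N w y j c u τ‖ ^ 2) ≤ K2 ι A r := by
  set V : ℕ → ℂ := fun p => w p * (Real.log p : ℂ) ^ j * (p : ℂ) ^ (-((u : ℂ) + τ * Complex.I))
    with hV
  have h1 : ∀ c : ι → ℤ, ‖FF N w y j c u τ‖ ^ 2 = WW N y (fun p => (V p).re) c ^ 2 +
      WW N y (fun p => (V p).im) c ^ 2 := by
    intro c
    have h2 : (FF N w y j c u τ).re = WW N y (fun p => (V p).re) c := by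
      unfold FF FZ WW
      rw [Complex.re_sum]
      refine Finset.sum_congr rfl fun p _ => ?_
      rw [Complex.re_mul_ofReal]
    have h3 : (FF N w y j c u τ).im = WW N y (fun p => (V p).im) c := by
      unfold FF FZ WW
      rw [Complex.im_sum]
      refine Finset.sum_congr rfl fun p _ => ?_
      rw [Complex.im_mul_ofReal]
    rw [← h2, ← h3, Complex.sq_norm, Complex.normSq_apply]
    ring
  simp only [h1]
  rw [EB_add]
  have e1 := EB_WW_scaled h H y hy hr (fun p => (V p).re) (fun p hp =>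
    (Complex.abs_re_le_norm _).trans (norm_wt hw p (mem_PR.mp hp).2 j hj u τ hu))
  have e2 := EB_WW_scaled h H y hy hr (fun p => (V p).im) (fun p hp =>
    (Complex.abs_im_le_norm _).trans (norm_wt hw p (mem_PR.mp hp).2 j hj u τ hu))
  unfold K2
  linarith

theorem EB_integral (H : ℕ) (a b : ℝ) (g : (ι → ℤ) → ℝ → ℝ) (hg : ∀ c, Continuous (g c)) :
    EB H (fun c : ι → ℤ => ∫ u in a..b, g c u) = ∫ u in a..b, EB H (fun c => g c u) := by
  unfold EB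
  rw [intervalIntegral.integral_div, intervalIntegral.integral_finsetSum]
  intro c _
  exact (hg c).intervalIntegrable _ _

theorem EB_int_le (H : ℕ) (a b K : ℝ) (hab : a ≤ b) (g : (ι → ℤ) → ℝ → ℝ)
    (hg : ∀ c, Continuous (g c)) (hK : ∀ u, a ≤ u → u ≤ b → EB H (fun c => g c u) ≤ K) :
    EB H (fun c : ι → ℤ => ∫ u in a..b, g c u) ≤ (b - a) * K := by
  rw [EB_integral H a b g hg]
  have hcont : Continuous fun u => EB H (fun c => g c u) := by
    unfold EB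
    exact (continuous_finsetSum _ fun c _ => hg c).div_const _
  have h1 : ∫ u in a..b, EB H (fun c => g c u) ≤ ∫ _u in a..b, K := by
    apply intervalIntegral.integral_mono_on hab (hcont.intervalIntegrable _ _) (by simp)
    intro u hu
    exact hK u hu.1 hu.2
  rw [intervalIntegral.integral_const, smul_eq_mul] at h1
  exact h1

theorem EB_PP (h : Fam A N B) (H y : ℕ) (hy : y ^ 4 ≤ H) {r : ℝ} (hr : 1 ≤ r) {w : ℕ → ℂ}
    (hw : ∀ p : ℕ, p.Prime → ‖w p‖ ≤ r) (j : ℕ) (hj : j ≤ 1) (t u : ℝ) (hu : 0 ≤ u) :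
    EB H (fun c : ι → ℤ => PP N w y j t c u) ≤ 3 * K2 ι A r := by
  unfold PP
  rw [EB_add]
  have h1 := EB_FF_sq h H y hy hr hw j (by omega) u t hu
  have h2 := EB_int_le (ι := ι) H t (t + 1) (2 * K2 ι A r) (by linarith)
    (fun c τ => ‖FF N w y j c u τ‖ ^ 2 + ‖FF N w y (j + 1) c u τ‖ ^ 2)
    (fun c => ((continuous_FF_t w y j c u).norm.pow 2).add
      ((continuous_FF_t w y (j + 1) c u).norm.pow 2))
    (fun τ _ _ => by
      rw [EB_add]
      have e1 := EB_FF_sq h H y hy hr hw j (by omega) u τ hu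
      have e2 := EB_FF_sq h H y hy hr hw (j + 1) (by omega) u τ hu
      linarith)
  have h3 : t + 1 - t = 1 := by ring
  rw [h3, one_mul] at h2
  linarith

theorem EB_G2 (h : Fam A N B) (H y : ℕ) (hy : y ^ 4 ≤ H) {r : ℝ} (hr : 1 ≤ r) {w : ℕ → ℂ}
    (hw : ∀ p : ℕ, p.Prime → ‖w p‖ ≤ r) (t : ℝ) :
    EB H (fun c : ι → ℤ => G2 N w y t c) ≤ 9 * K2 ι A r := by
  unfold G2
  rw [EB_add]
  have h1 := EB_PP h H y hy hr hw 0 (by omega) t 0 le_rfl
  have h2 := EB_int_le (ι := ι) H 0 1 (6 * K2 ι A r) zero_le_one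
    (fun c u => PP N w y 0 t c u + PP N w y 1 t c u)
    (fun c => (continuous_PP w y 0 t c).add (continuous_PP w y 1 t c))
    (fun u hu _ => by
      rw [EB_add]
      have e1 := EB_PP h H y hy hr hw 0 (by omega) t u hu
      have e2 := EB_PP h H y hy hr hw 1 (by omega) t u hu
      linarith)
  rw [sub_zero, one_mul] at h2
  linarith

theorem G2_nonneg (w : ℕ → ℂ) (y : ℕ) (t : ℝ) (c : ι → ℤ) : 0 ≤ G2 N w y t c :=
  le_trans (by positivity) (le_G2 w y c 0 t t le_rfl zero_le_one le_rfl (by linarith))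

end

end Pool.Agent.Y722.TM
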